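import Pool.Agent.Helper3.AC.Defs

/-!
# Project AG (MP_fb29e9_nt): ovals whose affine curvature has no double zero, almost every lattice, the twentieth moment. Definitions

As in project AC (Helper3/AC/Defs): frames `f = fr θ y T x`, `A₂ = T p₂ y² / 2`, `A₃ = A₂ (- x + β y)`, `A₃² - A₂ A₄ = κ A₂² y²`.
The map `(θ, y, T, x) ↦ (A₂, A₃, A₄)` has rank three wherever `(κ, κ') ≠ (0, 0)`. Two kinds of charts:
1. `|κ θ| ≥ κ₀` (both signs `s`): `θ` is fixed, coordinates `A`, `y = √((A₃² - A₂ A₄)/(κ A₂²))` (`fA`, `qf` of AC);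
2. near the zeros of `κ`: `y` is fixed, coordinates `A`, `θ` is given by `κ θ = (A₃² - A₂ A₄)/(A₂² y²)` (`fZ`, `qz`).
-/

open MeasureTheory Real Set Filter Topology

set_option autoImplicit false

namespace Pool.Agent.Helper92.AG

open Pool.Agent.Helper22.AE
open Pool.Agent.Helper92.GC (dt tp Tq uu tt arc dd)
open Pool.Agent.Helper75.TW (m20)
open Pool.Agent.Helper60.LT (Fr Tf xf yf df vf fr sl Cv Hom)
open Pool.Agent.Helper60.QL (R3)
open Pool.Agent.Helper3.AC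

/-- the fifth derivative of the slice -/
noncomputable def s5 (h : ℝ × ℝ → ℝ) (θ τ : ℝ) : ℝ := deriv (deriv (deriv (deriv (deriv (sl h θ))))) τ

/-- the class of phases: slices five times differentiable, everything Lipschitz in `θ`, `κ` and `κ'` without common zero -/
structure HG (c₁ B : ℝ) (h : ℝ × ℝ → ℝ) : Prop where
  hom : Hom c₁ B h
  sm : ∀ θ, ContDiff ℝ 5 (sl h θ)
  d5 : ∀ θ τ, |τ| ≤ 1 → |s5 h θ τ| ≤ B
  d5l : ∀ θ θ' τ, |τ| ≤ 1 → |s5 h θ τ - s5 h θ' τ| ≤ B * |θ - θ'|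
  p2l : ∀ θ θ', |p2 h θ - p2 h θ'| ≤ B * |θ - θ'|
  bel : ∀ θ θ', |be h θ - be h θ'| ≤ B * |θ - θ'|
  kd : Differentiable ℝ (ka h)
  k1 : ∀ θ, |deriv (ka h) θ| ≤ B
  k2 : ∀ θ θ', |deriv (ka h) θ - deriv (ka h) θ'| ≤ B * |θ - θ'|
  nd : ∀ θ, c₁ ≤ |ka h θ| + |deriv (ka h) θ|

/-! ## chart 1: fixed direction, sign `s` of `κ` -/

/-- the region of the coordinates for the sign `s` (`OS 1 B X = OM B X`) -/
def OS (s B X : ℝ) : Set R3 :=
  {A | X ≤ B * A.1 ∧ A.1 ≤ B * X ∧ |A.2.1| ≤ B * X ∧ |A.2.2| ≤ B * X ∧ X ^ 2 ≤ B * (s * (A.2.1 ^ 2 - A.2.2 * A.1))}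

/-- the directions with `s κ ≥ κ₀` -/
def P1 (h : ℝ × ℝ → ℝ) (s κ₀ : ℝ) : Set ℝ := {θ | θ ∈ Ioc (-π) π ∧ κ₀ ≤ s * ka h θ}

/-! ## chart 2: fixed height `y`, near a zero of `κ` -/

/-- `z` is near a zero of `κ`, and `κ` is monotone (`σ = 1` or `σ = -1`) on `[z - r, z + r]`, with `σ κ' ≥ c` -/
def Gd (c r z σ : ℝ) (h : ℝ × ℝ → ℝ) : Prop :=
  (σ = 1 ∨ σ = -1) ∧ |z| ≤ 4 ∧ |ka h z| ≤ c * r / 2 ∧ ∀ θ, |θ - z| ≤ r → c ≤ σ * deriv (ka h) θ

/-- the inverse function of `κ` on `[z - r, z + r]` (monotone on the whole line) -/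
noncomputable def th (h : ℝ × ℝ → ℝ) (z r σ v : ℝ) : ℝ :=
  sInf {θ | (z - r ≤ θ ∧ θ ≤ z + r ∧ σ * v ≤ σ * ka h θ) ∨ θ = z + r}

/-- the value of `κ` at the frame with height `y` and coordinates `A` -/
noncomputable def vA (y : ℝ) (A : R3) : ℝ := (A.2.1 ^ 2 - A.2.2 * A.1) / (A.1 ^ 2 * y ^ 2)

/-- the direction of the frame with height `y` and coordinates `A` -/
noncomputable def tA (h : ℝ × ℝ → ℝ) (z r σ y : ℝ) (A : R3) : ℝ := th h z r σ (vA y A)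

/-- the size -/
noncomputable def TZ (h : ℝ × ℝ → ℝ) (z r σ y : ℝ) (A : R3) : ℝ := 2 * A.1 / (p2 h (tA h z r σ y A) * y ^ 2)

/-- the shear -/
noncomputable def xZ (h : ℝ × ℝ → ℝ) (z r σ y : ℝ) (A : R3) : ℝ := -(A.2.1 / A.1) + be h (tA h z r σ y A) * y

/-- the frame with height `y` and coordinates `A` -/
noncomputable def fZ (h : ℝ × ℝ → ℝ) (z r σ y : ℝ) (A : R3) : Fr := fr (tA h z r σ y A) y (TZ h z r σ y A) (xZ h z r σ y A)

/-- the twentieth moment of the family of frames in the coordinates `y, A` -/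
noncomputable def qz (h : ℝ × ℝ → ℝ) (z r σ y t₀ : ℝ) (S : Finset (ℤ × ℤ)) (A : R3) : ℝ := mf h t₀ S (fZ h z r σ y A)

/-- the remainder after the terms of order at most four -/
noncomputable def ez (h : ℝ × ℝ → ℝ) (z r σ y : ℝ) (A : R3) (τ : ℝ) : ℝ :=
  hf h (fZ h z r σ y A) τ - (TZ h z r σ y A * sl h (tA h z r σ y A) 0 +
    TZ h z r σ y A * (xZ h z r σ y A * sl h (tA h z r σ y A) 0 + y * deriv (sl h (tA h z r σ y A)) 0) * τ +
    A.1 * τ ^ 2 + A.2.1 * τ ^ 3 + A.2.2 * τ ^ 4)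

/-- the region of the coordinates -/
def OZ (B e X : ℝ) : Set R3 :=
  {A | X ≤ B * A.1 ∧ A.1 ≤ B * X ∧ |A.2.1| ≤ B * X ∧ |A.2.2| ≤ B * X ∧ |A.2.1 ^ 2 - A.2.2 * A.1| ≤ e * A.1 ^ 2}

/-- the integral over the frames with direction `θ` (`int_fr`: the integral over all frames is the integral of `Rt` over the directions) -/
noncomputable def Rt (F : Fr → ENNReal) (θ : ℝ) : ENNReal :=
  ∫⁻ y, ∫⁻ T in Ioi (0 : ℝ), ∫⁻ x, ENNReal.ofReal (T ^ 3) * F (fr θ y T x)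

end Pool.Agent.Helper92.AG
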