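import Mathlib

/-!
# AG: small perturbations `H + a cos (m t) + b sin (m t)` without double zero of the affine curvature
-/

open Real Set

set_option autoImplicit false

namespace Pool.Agent.Helper92.AG

/-- the numerator of the affine curvature, for the radius of curvature `r` -/
noncomputable def affr (r : ℝ → ℝ) (t : ℝ) : ℝ := 9 * r t ^ 2 + 4 * deriv r t ^ 2 - 3 * r t * deriv (deriv r) t

/-- the values at the point with `r, r', r''` and the perturbation `u`, `m v` -/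
def E1 (m r r1 r2 u v : ℝ) : ℝ := 9 * (r + u) ^ 2 + 4 * (r1 + m * v) ^ 2 - 3 * (r + u) * (r2 - m ^ 2 * u)

def E2 (m r r1 r2 r3 u v : ℝ) : ℝ := (r1 + m * v) * (18 * (r + u) + 5 * (r2 - m ^ 2 * u)) - 3 * (r + u) * (r3 - m ^ 3 * v)

theorem E1_sub (m r r1 r2 u v u' v' : ℝ) : E1 m r r1 r2 u v - E1 m r r1 r2 u' v' =
    3 * m ^ 2 * r * (u - u') + (u - u') * (9 * (2 * r + u + u') + 3 * m ^ 2 * (u + u') - 3 * r2) +
      (v - v') * (4 * m * (2 * r1 + m * (v + v'))) := by
  unfold E1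
  ring

theorem E2_sub (m r r1 r2 r3 u v u' v' : ℝ) : E2 m r r1 r2 r3 u v - E2 m r r1 r2 r3 u' v' =
    3 * m ^ 3 * r * (v - v') + (v - v') * (m * (18 * r + 5 * r2) + u * (18 * m - 2 * m ^ 3)) +
      (u - u') * (r1 * (18 - 5 * m ^ 2) - 3 * r3 + v' * (18 * m - 2 * m ^ 3)) := by
  unfold E2
  ring

/-- the map `(u, v) ↦ (E1, E2)` is injective near `0`, with a lower bound -/
theorem E_inj {m c M : ℝ} (hc : 0 < c) (hM : 1 ≤ M) (hcM : c ≤ M) (hm : 100 * M ≤ c * m) {r r1 r2 r3 u v u' v' : ℝ} (h0 : c ≤ r) (h0' : r ≤ M)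
    (h1 : |r1| ≤ M) (h2 : |r2| ≤ M) (h3 : |r3| ≤ M) (hu : |u| * m ^ 2 ≤ 1) (hv : |v| * m ^ 2 ≤ 1) (hu' : |u'| * m ^ 2 ≤ 1) (hv' : |v'| * m ^ 2 ≤ 1)
    {ε : ℝ} (he1 : |E1 m r r1 r2 u v| ≤ ε) (he1' : |E1 m r r1 r2 u' v'| ≤ ε) (he2 : |E2 m r r1 r2 r3 u v| ≤ ε) (he2' : |E2 m r r1 r2 r3 u' v'| ≤ ε) :
    c * (|u - u'| + |v - v'|) ≤ 4 * ε := by
  have hM0 : 0 < M := by linarith
  have hm1 : 100 ≤ m := by
    by_contra hcon
    push Not at hcon
    have : c * m < c * 100 := mul_lt_mul_of_pos_left hcon hc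
    linarith
  have hm0 : 0 < m := by linarith
  have hmm : 10000 ≤ m ^ 2 := by nlinarith only [hcM, hm, hm1, hc, hM]
  have hcm : 10000 * M ≤ c * m ^ 2 := by
    have : 100 * (100 * M) ≤ m * (c * m) := mul_le_mul hm1 hm (by positivity) hm0.le
    calc 10000 * M = 100 * (100 * M) := by ring
      _ ≤ m * (c * m) := this
      _ = c * m ^ 2 := by ring
  have small : ∀ {x : ℝ}, |x| * m ^ 2 ≤ 1 → |x| ≤ 1 ∧ m * |x| ≤ 1 := by
    intro x hx
    have h0 := abs_nonneg x
    have e1 : |x| * 10000 ≤ |x| * m ^ 2 := mul_le_mul_of_nonneg_left hmm h0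
    have e2 : |x| * m * 1 ≤ |x| * m * m := mul_le_mul_of_nonneg_left (by linarith) (by positivity)
    constructor
    · linarith
    · calc m * |x| = |x| * m * 1 := by ring
        _ ≤ |x| * m * m := e2
        _ = |x| * m ^ 2 := by ring
        _ ≤ 1 := hx
  obtain ⟨p, hp⟩ : ∃ p, p = |u - u'| := ⟨_, rfl⟩
  obtain ⟨q, hq⟩ : ∃ q, q = |v - v'| := ⟨_, rfl⟩
  have hp0 : 0 ≤ p := by rw [hp]; exact abs_nonneg _
  have hq0 : 0 ≤ q := by rw [hq]; exact abs_nonneg _
  have tri : ∀ {A B C : ℝ}, |A + B + C| ≤ 2 * ε → |A| ≤ 2 * ε + |B| + |C| := by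
    intro A B C h
    have : A = (A + B + C) - B - C := by ring
    calc |A| = |(A + B + C) - B - C| := by rw [← this]
      _ ≤ |(A + B + C) - B| + |C| := abs_sub _ _
      _ ≤ |A + B + C| + |B| + |C| := by linarith [abs_sub (A + B + C) B]
      _ ≤ _ := by linarith
  have d1 : |E1 m r r1 r2 u v - E1 m r r1 r2 u' v'| ≤ 2 * ε := by
    refine (abs_sub _ _).trans ?_
    linarith
  have d2 : |E2 m r r1 r2 r3 u v - E2 m r r1 r2 r3 u' v'| ≤ 2 * ε := by
    refine (abs_sub _ _).trans ?_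
    linarith
  rw [E1_sub] at d1
  rw [E2_sub] at d2
  have t1 := tri d1
  have t2 := tri d2
  have b1 : |9 * (2 * r + u + u') + 3 * m ^ 2 * (u + u') - 3 * r2| ≤ 50 * M := by
    have a1 := abs_le.1 (small hu).1
    have a2 := abs_le.1 (small hu').1
    have a3 := abs_le.1 h2
    have a4 : |m ^ 2 * (u + u')| ≤ 2 := by
      rw [abs_mul, abs_of_pos (by positivity : 0 < m ^ 2)]
      calc m ^ 2 * |u + u'| ≤ m ^ 2 * (|u| + |u'|) := mul_le_mul_of_nonneg_left (abs_add_le _ _) (by positivity)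
        _ = |u| * m ^ 2 + |u'| * m ^ 2 := by ring
        _ ≤ 2 := by linarith
    have a5 := abs_le.1 a4
    rw [abs_le]
    constructor <;> linarith only [hc, hM, h0, h0', a1.1, a1.2, a2.1, a2.2, a3.1, a3.2, a5.1, a5.2]
  have b2 : |4 * m * (2 * r1 + m * (v + v'))| ≤ 9 * (m * M) := by
    have a4 : |m * (v + v')| ≤ 1 / 50 := by
      have e1 : |m * (v + v')| * 100 ≤ 2 := by
        rw [abs_mul, abs_of_pos hm0]
        calc m * |v + v'| * 100 ≤ m * (|v| + |v'|) * m := by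
              have := abs_add_le v v'
              have h5 := abs_nonneg (v + v')
              gcongr
          _ = |v| * m ^ 2 + |v'| * m ^ 2 := by ring
          _ ≤ 2 := by linarith
      linarith
    have a5 := abs_le.1 a4
    have a3 := abs_le.1 h1
    have a6 : |2 * r1 + m * (v + v')| ≤ 2 * M + 1 / 50 := by
      rw [abs_le]
      constructor <;> linarith only [a3.1, a3.2, a5.1, a5.2]
    rw [abs_mul, abs_of_pos (by positivity : 0 < 4 * m)]
    calc 4 * m * |2 * r1 + m * (v + v')| ≤ 4 * m * (2 * M + 1 / 50) := mul_le_mul_of_nonneg_left a6 (by positivity)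
      _ ≤ 4 * m * (9 / 4 * M) := mul_le_mul_of_nonneg_left (by linarith only [hM]) (by positivity)
      _ = 9 * (m * M) := by ring
  have hmx : ∀ {x : ℝ}, |x| * m ^ 2 ≤ 1 → |x * (18 * m - 2 * m ^ 3)| ≤ 2 * m := by
    intro x hx
    rw [abs_mul]
    have e1 : |18 * m - 2 * m ^ 3| ≤ 2 * m * m ^ 2 := by
      rw [abs_le]
      constructor
      · have : 0 < m ^ 3 := by positivity
        nlinarith only [hm1]
      · have : 9 * m ≤ m ^ 3 := by
          calc 9 * m ≤ m ^ 2 * m := by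
                have : (9 : ℝ) ≤ m ^ 2 := by linarith
                exact mul_le_mul_of_nonneg_right this hm0.le
            _ = m ^ 3 := by ring
        nlinarith only [hm1, this]
    calc |x| * |18 * m - 2 * m ^ 3| ≤ |x| * (2 * m * m ^ 2) := mul_le_mul_of_nonneg_left e1 (abs_nonneg _)
      _ = (|x| * m ^ 2) * (2 * m) := by ring
      _ ≤ 1 * (2 * m) := mul_le_mul_of_nonneg_right hx (by positivity)
      _ = 2 * m := one_mul _
  have b3 : |m * (18 * r + 5 * r2) + u * (18 * m - 2 * m ^ 3)| ≤ 26 * (m * M) := by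
    have a1 := abs_le.1 (hmx hu)
    have a2 : |m * (18 * r + 5 * r2)| ≤ 23 * (m * M) := by
      rw [abs_mul, abs_of_pos hm0]
      have a3 := abs_le.1 h2
      have a4 : |18 * r + 5 * r2| ≤ 23 * M := by
        rw [abs_le]
        constructor <;> linarith [a3.1, a3.2]
      calc m * |18 * r + 5 * r2| ≤ m * (23 * M) := mul_le_mul_of_nonneg_left a4 hm0.le
        _ = 23 * (m * M) := by ring
    have a3 := abs_le.1 a2
    have a4 : m ≤ m * M := le_mul_of_one_le_right hm0.le hM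
    rw [abs_le]
    constructor <;> linarith [a1.1, a1.2, a3.1, a3.2]
  have b4 : |r1 * (18 - 5 * m ^ 2) - 3 * r3 + v' * (18 * m - 2 * m ^ 3)| ≤ 6 * (m ^ 2 * M) := by
    have a1 := abs_le.1 (hmx hv')
    have a2 : |r1 * (18 - 5 * m ^ 2)| ≤ 5 * (m ^ 2 * M) := by
      rw [abs_mul]
      have a4 : |18 - 5 * m ^ 2| ≤ 5 * m ^ 2 := by
        rw [abs_le]
        constructor <;> linarith
      calc |r1| * |18 - 5 * m ^ 2| ≤ M * (5 * m ^ 2) := mul_le_mul h1 a4 (abs_nonneg _) hM0.le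
        _ = 5 * (m ^ 2 * M) := by ring
    have a3 := abs_le.1 a2
    have a4 := abs_le.1 h3
    have a5 : 3 * M + 2 * m ≤ m ^ 2 * M := by
      have e1 : 100 * m ≤ m ^ 2 := by nlinarith only [hm1, hc, hM, hm]
      have e2 : m ^ 2 ≤ m ^ 2 * M := le_mul_of_one_le_right (by positivity) hM
      have e3 : 10000 * M ≤ m ^ 2 * M := mul_le_mul_of_nonneg_right hmm hM0.le
      linarith only [hmm, e1, e2, e3]
    rw [abs_le]
    constructor <;> linarith only [a5, a1.1, a1.2, a3.1, a3.2, a4.1, a4.2]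
  have m1 : |3 * m ^ 2 * r * (u - u')| = 3 * m ^ 2 * r * p := by
    rw [abs_mul, abs_of_pos (by have := lt_of_lt_of_le hc h0; positivity), hp]
  have m2 : |3 * m ^ 3 * r * (v - v')| = 3 * m ^ 3 * r * q := by
    rw [abs_mul, abs_of_pos (by have := lt_of_lt_of_le hc h0; positivity), hq]
  rw [m1, abs_mul, abs_mul, ← hp, ← hq] at t1
  rw [m2, abs_mul, abs_mul, ← hp, ← hq] at t2
  have c1 : 3 * m ^ 2 * c * p ≤ 2 * ε + p * (50 * M) + q * (9 * (m * M)) := by
    calc 3 * m ^ 2 * c * p ≤ 3 * m ^ 2 * r * p := by gcongr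
      _ ≤ _ := t1
      _ ≤ _ := by (clear * - b1 hp0 b2 hq0; gcongr)
  have c2 : 3 * m ^ 3 * c * q ≤ 2 * ε + q * (26 * (m * M)) + p * (6 * (m ^ 2 * M)) := by
    calc 3 * m ^ 3 * c * q ≤ 3 * m ^ 3 * r * q := by gcongr
      _ ≤ _ := t2
      _ ≤ _ := by gcongr
  obtain ⟨P, hP⟩ : ∃ P, P = c * m ^ 2 * p := ⟨_, rfl⟩
  obtain ⟨Q, hQ⟩ : ∃ Q, Q = c * m ^ 2 * q := ⟨_, rfl⟩
  have hP0 : 0 ≤ P := by rw [hP]; positivity
  have hQ0 : 0 ≤ Q := by rw [hQ]; positivity
  have k1 : p * (50 * M) ≤ P := by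
    rw [hP]
    have := mul_le_mul_of_nonneg_left hcm hp0
    have h5 : 0 ≤ p * M := by positivity
    nlinarith only [hP, hP0, this]
  have k2 : 10 * (q * (9 * (m * M))) ≤ Q := by
    rw [hQ]
    have := mul_le_mul_of_nonneg_left hm (by positivity : 0 ≤ m * q)
    have h5 : 0 ≤ m * q * M := by positivity
    nlinarith only [hQ, hQ0, this]
  have k3 : q * (26 * (m * M)) ≤ m * Q := by
    rw [hQ]
    have := mul_le_mul_of_nonneg_left hcm (by positivity : 0 ≤ m * q)
    have h5 : 0 ≤ m * q * M := by positivity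
    nlinarith only [this, h5]
  have k4 : 10 * (p * (6 * (m ^ 2 * M))) ≤ m * P := by
    rw [hP]
    have := mul_le_mul_of_nonneg_left hm (by positivity : 0 ≤ m ^ 2 * p)
    have h5 : 0 ≤ m ^ 2 * p * M := by positivity
    nlinarith only [this, h5]
  have hε : 0 ≤ ε := (abs_nonneg _).trans he1
  have c3 : 3 * P ≤ 2 * ε + P + Q / 10 := by
    have e : 3 * P = 3 * m ^ 2 * c * p := by rw [hP]; ring
    linarith only [c1, hP, k1, k2]
  have c4 : m * (3 * Q) ≤ m * (2 * ε + Q + P / 10) := by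
    have e : m * (3 * Q) = 3 * m ^ 3 * c * q := by rw [hQ]; ring
    have e2 : 2 * ε ≤ m * (2 * ε) := le_mul_of_one_le_left (by linarith only [hε]) (by linarith)
    linarith only [c2, k3, k4, e, e2]
  have c5 := le_of_mul_le_mul_left c4 hm0
  have c6 : c * p ≤ P := by
    rw [hP]
    calc c * p = c * 1 * p := by ring
      _ ≤ c * m ^ 2 * p := by
        have : (1 : ℝ) ≤ m ^ 2 := by linarith only [hmm]
        gcongr
  have c7 : c * q ≤ Q := by
    rw [hQ]
    calc c * q = c * 1 * q := by ring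
      _ ≤ c * m ^ 2 * q := by
        have : (1 : ℝ) ≤ m ^ 2 := by linarith only [hmm]
        gcongr
  rw [← hp, ← hq, mul_add]
  linarith only [c1, hP, k1, k2, hε, c5, c6, c7]

/-- the radius of curvature -/
noncomputable def rad (H : ℝ → ℝ) (t : ℝ) : ℝ := H t + deriv (deriv H) t

/-- the numerator of the affine curvature -/
noncomputable def af (H : ℝ → ℝ) (t : ℝ) : ℝ := 9 * rad H t ^ 2 + 4 * deriv (rad H) t ^ 2 - 3 * rad H t * deriv (deriv (rad H)) t

/-- the perturbation -/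
noncomputable def pert (H : ℝ → ℝ) (m : ℕ) (a b : ℝ) (t : ℝ) : ℝ := H t + (a * cos (m * t) + b * sin (m * t))

/-- `A cos (m t) + B sin (m t)` and its derivative divided by `m` -/
noncomputable def uw (m A B t : ℝ) : ℝ := A * cos (m * t) + B * sin (m * t)

noncomputable def vw (m A B t : ℝ) : ℝ := -(A * sin (m * t)) + B * cos (m * t)

theorem uw_deriv (m A B t : ℝ) : HasDerivAt (uw m A B) (m * vw m A B t) t := by
  have h1 : HasDerivAt (fun t : ℝ => m * t) m t := by
    simpa using (hasDerivAt_id t).const_mul m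
  have h2 := (h1.cos.const_mul A).add (h1.sin.const_mul B)
  unfold uw
  refine h2.congr_deriv ?_
  unfold vw
  ring

theorem vw_deriv (m A B t : ℝ) : HasDerivAt (vw m A B) (-(m * uw m A B t)) t := by
  have h1 : HasDerivAt (fun t : ℝ => m * t) m t := by
    simpa using (hasDerivAt_id t).const_mul m
  have h2 := ((h1.sin.const_mul A).neg).add (h1.cos.const_mul B)
  unfold vw
  refine h2.congr_deriv ?_
  unfold uw
  ring

theorem rad_pert {H : ℝ → ℝ} (h : ContDiff ℝ 7 H) (m : ℕ) (a b : ℝ) :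
    rad (pert H m a b) = fun t => rad H t + uw m ((1 - m ^ 2) * a) ((1 - m ^ 2) * b) t := by
  have d1 : deriv (pert H m a b) = fun t => deriv H t + m * vw m a b t := by
    funext t
    have h1 := (h.differentiable (by norm_num) t).hasDerivAt
    exact (h1.add (uw_deriv m a b t)).deriv
  have h2 : Differentiable ℝ (deriv H) := (h.iterate_deriv' 6 1).differentiable (by norm_num)
  have d2 : deriv (deriv (pert H m a b)) = fun t => deriv (deriv H) t + m * (-(m * uw m a b t)) := by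
    rw [d1]
    funext t
    exact ((h2 t).hasDerivAt.add ((vw_deriv m a b t).const_mul (m : ℝ))).deriv
  funext t
  unfold rad
  rw [d2]
  unfold pert uw
  simp only
  ring

theorem rad_smooth {H : ℝ → ℝ} (h : ContDiff ℝ 7 H) : ContDiff ℝ 5 (rad H) := by
  have h1 : ContDiff ℝ 5 (deriv (deriv H)) := h.iterate_deriv' 5 2
  exact (h.of_le (by norm_num)).add h1

theorem af_pert {H : ℝ → ℝ} (h : ContDiff ℝ 7 H) (m : ℕ) (a b : ℝ) (t : ℝ) :
    af (pert H m a b) t = E1 m (rad H t) (deriv (rad H) t) (deriv (deriv (rad H)) t) (uw m ((1 - m ^ 2) * a) ((1 - m ^ 2) * b) t)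
      (vw m ((1 - m ^ 2) * a) ((1 - m ^ 2) * b) t) ∧
    deriv (af (pert H m a b)) t = E2 m (rad H t) (deriv (rad H) t) (deriv (deriv (rad H)) t) (deriv (deriv (deriv (rad H))) t)
      (uw m ((1 - m ^ 2) * a) ((1 - m ^ 2) * b) t) (vw m ((1 - m ^ 2) * a) ((1 - m ^ 2) * b) t) := by
  obtain ⟨A, hA⟩ : ∃ A : ℝ, A = (1 - m ^ 2) * a := ⟨_, rfl⟩
  obtain ⟨B, hB⟩ : ∃ B : ℝ, B = (1 - m ^ 2) * b := ⟨_, rfl⟩
  have hr := rad_smooth h
  have hr0 : Differentiable ℝ (rad H) := hr.differentiable (by norm_num)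
  have hr1 : Differentiable ℝ (deriv (rad H)) := (hr.iterate_deriv' 4 1).differentiable (by norm_num)
  have hr2 : Differentiable ℝ (deriv (deriv (rad H))) := (hr.iterate_deriv' 3 2).differentiable (by norm_num)
  have e0 := rad_pert h m a b
  rw [← hA, ← hB] at e0 ⊢
  have e1 : deriv (rad (pert H m a b)) = fun t => deriv (rad H) t + m * vw m A B t := by
    rw [e0]
    funext t
    exact ((hr0 t).hasDerivAt.add (uw_deriv m A B t)).deriv
  have e2 : deriv (deriv (rad (pert H m a b))) = fun t => deriv (deriv (rad H)) t + m * (-(m * uw m A B t)) := by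
    rw [e1]
    funext t
    exact ((hr1 t).hasDerivAt.add ((vw_deriv m A B t).const_mul (m : ℝ))).deriv
  have e3 : af (pert H m a b) = fun t => 9 * (rad H t + uw m A B t) ^ 2 + 4 * (deriv (rad H) t + m * vw m A B t) ^ 2 -
      3 * (rad H t + uw m A B t) * (deriv (deriv (rad H)) t + m * (-(m * uw m A B t))) := by
    funext t
    unfold af
    rw [e2, e1, e0]
  refine ⟨?_, ?_⟩
  · rw [e3]
    unfold E1
    simp only
    ring
  · rw [e3]
    have g0 := (hr0 t).hasDerivAt.add (uw_deriv m A B t)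
    have g1 := (hr1 t).hasDerivAt.add ((vw_deriv m A B t).const_mul (m : ℝ))
    have g2 := (hr2 t).hasDerivAt.add (((uw_deriv m A B t).const_mul (m : ℝ)).neg.const_mul (m : ℝ))
    have g3 := (((g0.pow 2).const_mul 9).add ((g1.pow 2).const_mul 4)).sub ((g0.const_mul 3).mul g2)
    have g4 := g3.deriv
    refine Eq.trans ?_ (g4.trans ?_)
    · rfl
    · unfold E2
      simp only [Pi.add_apply, Pi.neg_apply]
      push_cast
      ring

theorem uw_sub (m A B A' B' t : ℝ) : uw m A B t - uw m A' B' t = (A - A') * cos (m * t) + (B - B') * sin (m * t) := by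
  unfold uw
  ring

theorem vw_sub (m A B A' B' t : ℝ) : vw m A B t - vw m A' B' t = -((A - A') * sin (m * t)) + (B - B') * cos (m * t) := by
  unfold vw
  ring

theorem uw_le {m A B t ρ : ℝ} (hA : |A| ≤ ρ) (hB : |B| ≤ ρ) : |uw m A B t| ≤ 2 * ρ ∧ |vw m A B t| ≤ 2 * ρ := by
  have c1 := abs_cos_le_one (m * t)
  have s1 := abs_sin_le_one (m * t)
  have hρ : 0 ≤ ρ := (abs_nonneg _).trans hA
  have key : ∀ x y p q : ℝ, |x| ≤ ρ → |y| ≤ ρ → |p| ≤ 1 → |q| ≤ 1 → |x * p + y * q| ≤ 2 * ρ := by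
    intro x y p q hx hy hp hq
    refine (abs_add_le _ _).trans ?_
    rw [abs_mul, abs_mul]
    have h1 := mul_le_mul hx hp (abs_nonneg _) hρ
    have h2 := mul_le_mul hy hq (abs_nonneg _) hρ
    linarith
  refine ⟨key _ _ _ _ hA hB c1 s1, ?_⟩
  have h1 := key (-A) B (sin (m * t)) (cos (m * t)) (by rwa [abs_neg]) hB s1 c1
  unfold vw
  rwa [neg_mul] at h1

/-- the rotation -/
theorem rot_le (m A B A' B' t : ℝ) : max |A - A'| |B - B'| ≤ |uw m A B t - uw m A' B' t| + |vw m A B t - vw m A' B' t| := by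
  rw [uw_sub, vw_sub]
  obtain ⟨x, hx⟩ : ∃ x : ℝ, x = (A - A') * cos (m * t) + (B - B') * sin (m * t) := ⟨_, rfl⟩
  obtain ⟨y, hy⟩ : ∃ y : ℝ, y = -((A - A') * sin (m * t)) + (B - B') * cos (m * t) := ⟨_, rfl⟩
  rw [← hx, ← hy]
  have h1 := sin_sq_add_cos_sq (m * t)
  have e1 : A - A' = x * cos (m * t) - y * sin (m * t) := by
    rw [hx, hy]
    linear_combination -(A - A') * h1
  have e2 : B - B' = x * sin (m * t) + y * cos (m * t) := by
    rw [hx, hy]
    linear_combination -(B - B') * h1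
  have c1 := abs_cos_le_one (m * t)
  have s1 := abs_sin_le_one (m * t)
  refine max_le ?_ ?_
  · rw [e1]
    refine (abs_sub _ _).trans ?_
    rw [abs_mul, abs_mul]
    have h1 := mul_le_mul_of_nonneg_left c1 (abs_nonneg x)
    have h2 := mul_le_mul_of_nonneg_left s1 (abs_nonneg y)
    linarith
  · rw [e2]
    refine (abs_add_le _ _).trans ?_
    rw [abs_mul, abs_mul]
    have h1 := mul_le_mul_of_nonneg_left s1 (abs_nonneg x)
    have h2 := mul_le_mul_of_nonneg_left c1 (abs_nonneg y)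
    linarith

theorem per_deriv {f : ℝ → ℝ} {c : ℝ} (h : Function.Periodic f c) : Function.Periodic (deriv f) c := by
  intro x
  rw [← deriv_comp_add_const f c x]
  congr 1
  funext y
  exact h y

/-- small perturbations of any oval of class `C⁷` have no double zero of the affine curvature -/
theorem gen_dense {H : ℝ → ℝ} (h7 : ContDiff ℝ 7 H) (hp : Function.Periodic H (2 * π)) (hr : ∀ t, 0 < rad H t) :
    ∃ m : ℕ, ∀ δ : ℝ, 0 < δ → ∃ a b : ℝ, |a| < δ ∧ |b| < δ ∧ (∀ t, 0 < rad (pert H m a b) t) ∧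
      ∀ t, af (pert H m a b) t ≠ 0 ∨ deriv (af (pert H m a b)) t ≠ 0 := by
  have hrs := rad_smooth h7
  have hc0 : Continuous (rad H) := hrs.continuous
  have hc1 : Continuous (deriv (rad H)) := (hrs.iterate_deriv' 4 1).continuous
  have hc2 : Continuous (deriv (deriv (rad H))) := (hrs.iterate_deriv' 3 2).continuous
  have hc3 : Continuous (deriv (deriv (deriv (rad H)))) := (hrs.iterate_deriv' 2 3).continuous
  have hpi := Real.pi_pos
  have hI : IsCompact (Icc (0 : ℝ) (2 * π)) := isCompact_Icc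
  have hne : (Icc (0 : ℝ) (2 * π)).Nonempty := ⟨0, le_rfl, by linarith⟩
  obtain ⟨t₀, ht₀, hmin⟩ := hI.exists_isMinOn hne hc0.continuousOn
  obtain ⟨c, hc⟩ : ∃ c : ℝ, c = rad H t₀ := ⟨_, rfl⟩
  have hc00 : 0 < c := by
    rw [hc]
    exact hr t₀
  have hcr : ∀ t ∈ Icc (0 : ℝ) (2 * π), c ≤ rad H t := by
    intro t ht
    rw [hc]
    exact hmin ht
  obtain ⟨M0, hM0⟩ := hI.exists_bound_of_continuousOn hc0.continuousOn
  obtain ⟨M1, hM1⟩ := hI.exists_bound_of_continuousOn hc1.continuousOn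
  obtain ⟨M2, hM2⟩ := hI.exists_bound_of_continuousOn hc2.continuousOn
  obtain ⟨M3, hM3⟩ := hI.exists_bound_of_continuousOn hc3.continuousOn
  obtain ⟨M, hM⟩ : ∃ M : ℝ, M = 1 + |M0| + |M1| + |M2| + |M3| + c := ⟨_, rfl⟩
  have a0 := abs_nonneg M0
  have a1 := abs_nonneg M1
  have a2 := abs_nonneg M2
  have a3 := abs_nonneg M3
  have hM1' : 1 ≤ M := by linarith
  have b0 : ∀ t ∈ Icc (0 : ℝ) (2 * π), rad H t ≤ M := by
    intro t ht
    have h1 := hM0 t ht
    rw [Real.norm_eq_abs] at h1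
    have h2 := le_abs_self (rad H t)
    have h3 := le_abs_self M0
    linarith
  have b1 : ∀ t ∈ Icc (0 : ℝ) (2 * π), |deriv (rad H) t| ≤ M := by
    intro t ht
    have h1 := hM1 t ht
    rw [Real.norm_eq_abs] at h1
    have h3 := le_abs_self M1
    linarith
  have b2 : ∀ t ∈ Icc (0 : ℝ) (2 * π), |deriv (deriv (rad H)) t| ≤ M := by
    intro t ht
    have h1 := hM2 t ht
    rw [Real.norm_eq_abs] at h1
    have h3 := le_abs_self M2
    linarith
  have b3 : ∀ t ∈ Icc (0 : ℝ) (2 * π), |deriv (deriv (deriv (rad H))) t| ≤ M := by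
    intro t ht
    have h1 := hM3 t ht
    rw [Real.norm_eq_abs] at h1
    have h3 := le_abs_self M3
    linarith
  obtain ⟨m, hm⟩ := exists_nat_ge (100 * M / c)
  rw [div_le_iff₀ hc00] at hm
  have hm' : 100 * M ≤ c * m := by linarith
  have hm100 : (100 : ℝ) ≤ m := by
    by_contra hcon
    push Not at hcon
    have h1 : c * (m : ℝ) < c * 100 := mul_lt_mul_of_pos_left hcon hc00
    have h2 : c ≤ M := by linarith
    linarith
  have hm0 : (0 : ℝ) < m := by linarith
  obtain ⟨ρ, hρ⟩ : ∃ ρ : ℝ, ρ = 1 / (2 * (m : ℝ) ^ 2) := ⟨_, rfl⟩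
  have hρ0 : 0 < ρ := by
    rw [hρ]
    positivity
  have hρm : 2 * ρ * (m : ℝ) ^ 2 = 1 := by
    rw [hρ]
    field_simp
  have hρ1 : ρ ≤ 1 := by
    have h1 : (1 : ℝ) ≤ (m : ℝ) ^ 2 := by nlinarith only [hm100]
    have h2 : 2 * ρ * 1 ≤ 2 * ρ * (m : ℝ) ^ 2 := mul_le_mul_of_nonneg_left h1 (by positivity)
    linarith
  refine ⟨m, fun δ hδ => ?_⟩
  -- the map
  obtain ⟨F, hF⟩ : ∃ F : ℝ × (ℝ × ℝ) → ℝ × ℝ, F = fun z =>
    (E1 m (rad H z.1) (deriv (rad H) z.1) (deriv (deriv (rad H)) z.1) (uw m z.2.1 z.2.2 z.1) (vw m z.2.1 z.2.2 z.1),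
      E2 m (rad H z.1) (deriv (rad H) z.1) (deriv (deriv (rad H)) z.1) (deriv (deriv (deriv (rad H))) z.1) (uw m z.2.1 z.2.2 z.1)
        (vw m z.2.1 z.2.2 z.1)) := ⟨_, rfl⟩
  have hFs : ContDiff ℝ 1 F := by
    have s0 : ContDiff ℝ 1 (rad H) := hrs.of_le (by norm_num)
    have s1 : ContDiff ℝ 1 (deriv (rad H)) := (hrs.iterate_deriv' 4 1).of_le (by norm_num)
    have s2 : ContDiff ℝ 1 (deriv (deriv (rad H))) := (hrs.iterate_deriv' 3 2).of_le (by norm_num)
    have s3 : ContDiff ℝ 1 (deriv (deriv (deriv (rad H)))) := (hrs.iterate_deriv' 2 3).of_le (by norm_num)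
    rw [hF]
    unfold E1 E2 uw vw
    fun_prop
  obtain ⟨K, hK⟩ := hFs.contDiffOn.exists_lipschitzOnWith (s := Icc (0 : ℝ) (2 * π) ×ˢ (Icc (-1 : ℝ) 1 ×ˢ Icc (-1 : ℝ) 1)) (by norm_num)
    ((convex_Icc _ _).prod ((convex_Icc _ _).prod (convex_Icc _ _))) (isCompact_Icc.prod (isCompact_Icc.prod isCompact_Icc))
  obtain ⟨Bad, hBad⟩ : ∃ Bad : ℝ → ℝ × ℝ → Prop, ∀ t q, Bad t q ↔ t ∈ Icc (0 : ℝ) (2 * π) ∧ |q.1| ≤ ρ ∧ |q.2| ≤ ρ ∧ F (t, q) = 0 := ⟨_, fun _ _ => Iff.rfl⟩
  have key : ∀ t t' q q', Bad t q → Bad t' q' → dist q q' ≤ (4 * K / c) * dist t t' := by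
    intro t t' q q' hb hb'
    rw [hBad] at hb hb'
    obtain ⟨ht, hq1, hq2, hz⟩ := hb
    obtain ⟨ht', hq1', hq2', hz'⟩ := hb'
    have hmem : ∀ t ∈ Icc (0 : ℝ) (2 * π), (t, q') ∈ Icc (0 : ℝ) (2 * π) ×ˢ (Icc (-1 : ℝ) 1 ×ˢ Icc (-1 : ℝ) 1) := by
      intro t ht
      have h1 := abs_le.1 (hq1'.trans hρ1)
      have h2 := abs_le.1 (hq2'.trans hρ1)
      exact ⟨ht, ⟨h1.1, h1.2⟩, ⟨h2.1, h2.2⟩⟩
    have h1 := hK.dist_le_mul (t, q') (hmem t ht) (t', q') (hmem t' ht')
    rw [hz'] at h1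
    have h2 : dist (t, q') (t', q') = dist t t' := by
      rw [Prod.dist_eq, dist_self]
      exact max_eq_left dist_nonneg
    rw [h2, dist_zero_right, Prod.norm_def] at h1
    have e1 : |(F (t, q')).1| ≤ K * dist t t' := (le_max_left _ _).trans h1
    have e2 : |(F (t, q')).2| ≤ K * dist t t' := (le_max_right _ _).trans h1
    have z1 : (F (t, q)).1 = 0 := by rw [hz]; rfl
    have z2 : (F (t, q)).2 = 0 := by rw [hz]; rfl
    have hε : 0 ≤ K * dist t t' := (abs_nonneg _).trans e1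
    rw [hF] at e1 e2 z1 z2
    simp only at e1 e2 z1 z2
    have w1 := uw_le (m := m) (t := t) hq1 hq2
    have w2 := uw_le (m := m) (t := t) hq1' hq2'
    have sm : ∀ x : ℝ, |x| ≤ 2 * ρ → |x| * (m : ℝ) ^ 2 ≤ 1 := by
      intro x hx
      have := mul_le_mul_of_nonneg_right hx (show 0 ≤ (m : ℝ) ^ 2 by positivity)
      linarith
    have h3 := E_inj hc00 hM1' (by linarith) hm' (hcr t ht) (b0 t ht) (b1 t ht) (b2 t ht) (b3 t ht) (sm _ w1.1) (sm _ w1.2) (sm _ w2.1) (sm _ w2.2)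
      (ε := K * dist t t') (by rw [z1, abs_zero]; exact hε) e1 (by rw [z2, abs_zero]; exact hε) e2
    have h4 := rot_le m q.1 q.2 q'.1 q'.2 t
    have h5 : dist q q' = max |q.1 - q'.1| |q.2 - q'.2| := by
      rw [Prod.dist_eq, Real.dist_eq, Real.dist_eq]
    rw [h5]
    refine h4.trans ?_
    rw [div_mul_eq_mul_div, le_div_iff₀ hc00]
    linarith
  classical
  obtain ⟨T, hT⟩ : ∃ T : Set ℝ, T = {t | ∃ q, Bad t q} := ⟨_, rfl⟩
  obtain ⟨f, hf⟩ : ∃ f : ℝ → ℝ × ℝ, ∀ t ∈ T, Bad t (f t) := by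
    refine ⟨fun t => if h : ∃ q, Bad t q then h.choose else 0, fun t ht => ?_⟩
    rw [hT] at ht
    have ht' : ∃ q, Bad t q := ht
    simp only [dif_pos ht']
    exact ht'.choose_spec
  have hKc : 0 ≤ 4 * (K : ℝ) / c := by positivity
  have hLip : LipschitzOnWith (Real.toNNReal (4 * K / c)) f T := by
    refine LipschitzOnWith.of_dist_le_mul fun t ht t' ht' => ?_
    rw [Real.coe_toNNReal _ hKc]
    exact key t t' _ _ (hf t ht) (hf t' ht')
  have hdim : dimH (f '' T) < Module.finrank ℝ (ℝ × ℝ) := by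
    refine lt_of_le_of_lt (hLip.dimH_image_le.trans (dimH_mono (subset_univ T))) ?_
    rw [Real.dimH_univ]
    have : Module.finrank ℝ (ℝ × ℝ) = 2 := by simp
    rw [this]
    norm_num
  have hden := dense_compl_of_dimH_lt_finrank hdim
  obtain ⟨δ', hδ'⟩ : ∃ δ' : ℝ, δ' = min ρ (min δ (c / 4)) := ⟨_, rfl⟩
  have hδ'0 : 0 < δ' := by
    rw [hδ']
    exact lt_min hρ0 (lt_min hδ (by positivity))
  have d1 : δ' ≤ ρ := by
    rw [hδ']
    exact min_le_left _ _
  have d2 : δ' ≤ δ := by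
    rw [hδ']
    exact (min_le_right _ _).trans (min_le_left _ _)
  have d3 : δ' ≤ c / 4 := by
    rw [hδ']
    exact (min_le_right _ _).trans (min_le_right _ _)
  obtain ⟨q, hqT, hq⟩ := hden.exists_dist_lt 0 hδ'0
  rw [dist_zero_left, Prod.norm_def] at hq
  have q1 : |q.1| < δ' := lt_of_le_of_lt (le_max_left _ _) hq
  have q2 : |q.2| < δ' := lt_of_le_of_lt (le_max_right _ _) hq
  have hm1 : (1 : ℝ) ≤ (m : ℝ) ^ 2 - 1 := by nlinarith only [hm100]
  have hmne : (1 - (m : ℝ) ^ 2) ≠ 0 := by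
    intro h
    linarith
  have hdiv : ∀ x : ℝ, |x| < δ' → |x / (1 - (m : ℝ) ^ 2)| < δ := by
    intro x hx
    rw [abs_div]
    have h1 : 1 ≤ |1 - (m : ℝ) ^ 2| := by
      rw [abs_of_neg (by linarith)]
      linarith
    have h2 : |x| / |1 - (m : ℝ) ^ 2| ≤ |x| := div_le_self (abs_nonneg _) h1
    linarith only [d2, hx, h2]
  refine ⟨q.1 / (1 - (m : ℝ) ^ 2), q.2 / (1 - (m : ℝ) ^ 2), hdiv _ q1, hdiv _ q2, ?_, ?_⟩
  · -- positivity
    intro t
    rw [rad_pert h7]
    simp only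
    rw [mul_div_cancel₀ _ hmne, mul_div_cancel₀ _ hmne]
    have w1 := (uw_le (m := m) (t := t) (q1.le.trans d3) (q2.le.trans d3)).1
    have h1 : c ≤ rad H t := by
      have hper : Function.Periodic (rad H) (2 * π) := by
        have p1 : Function.Periodic (deriv H) (2 * π) := per_deriv hp
        have p2 : Function.Periodic (deriv (deriv H)) (2 * π) := per_deriv p1
        exact hp.add p2
      obtain ⟨y, hy, hy2⟩ := hper.exists_mem_Ico₀ (by linarith only [hpi]) t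
      rw [hy2]
      exact hcr y ⟨hy.1, hy.2.le⟩
    have h2 := (abs_le.1 w1).1
    linarith only [hδ'0, d3, h1, h2]
  · intro t
    obtain ⟨G, hG⟩ : ∃ G : ℝ → ℝ, G = pert H m (q.1 / (1 - (m : ℝ) ^ 2)) (q.2 / (1 - (m : ℝ) ^ 2)) := ⟨_, rfl⟩
    rw [← hG]
    by_contra hcon
    push Not at hcon
    have hGp : Function.Periodic G (2 * π) := by
      rw [hG]
      intro x
      unfold pert
      rw [hp x, mul_add, show (m : ℝ) * (2 * π) = m * (2 * π) from rfl, Real.cos_add_nat_mul_two_pi, Real.sin_add_nat_mul_two_pi]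
    have hradp : Function.Periodic (rad G) (2 * π) := by
      have p1 : Function.Periodic (deriv G) (2 * π) := per_deriv hGp
      have p2 : Function.Periodic (deriv (deriv G)) (2 * π) := per_deriv p1
      exact hGp.add p2
    have hafp : Function.Periodic (af G) (2 * π) := by
      have p1 := per_deriv hradp
      have p2 := per_deriv p1
      intro x
      unfold af
      rw [hradp x, p1 x, p2 x]
    have hafp' := per_deriv hafp
    have hpair : Function.Periodic (fun t => (af G t, deriv (af G) t)) (2 * π) := by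
      intro x
      simp only
      rw [hafp x, hafp' x]
    obtain ⟨y, hy, hy2⟩ := hpair.exists_mem_Ico₀ (by linarith only [hpi]) t
    have y1 : af G y = 0 := by
      have := congrArg Prod.fst hy2
      simp only at this
      rw [← this]
      exact hcon.1
    have y2 : deriv (af G) y = 0 := by
      have := congrArg Prod.snd hy2
      simp only at this
      rw [← this]
      exact hcon.2
    have h1 := af_pert h7 m (q.1 / (1 - (m : ℝ) ^ 2)) (q.2 / (1 - (m : ℝ) ^ 2)) y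
    rw [← hG, y1, y2, mul_div_cancel₀ _ hmne, mul_div_cancel₀ _ hmne] at h1
    have hbad : Bad y q := by
      rw [hBad]
      refine ⟨⟨hy.1, hy.2.le⟩, q1.le.trans d1, q2.le.trans d1, ?_⟩
      rw [hF]
      simp only
      rw [← h1.1, ← h1.2]
      rfl
    apply hqT
    have hyT : y ∈ T := by
      rw [hT]
      exact ⟨q, hbad⟩
    refine ⟨y, hyT, ?_⟩
    have h2 := key y y (f y) q (hf y hyT) hbad
    rw [dist_self, mul_zero] at h2
    exact dist_le_zero.1 h2

end Pool.Agent.Helper92.AG
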